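import Pool.Graph.R_seed8.Results.MP_ceb5ee_gt.AnalyticHull
import Pool.Graph.R_pool_sql_team_seeded_47a924f7.Results.MP_ceb5ee_gt.CoanalyticHull

set_option autoImplicit false

/-!
# Borel hulls of analytic sets with respect to sequences of Borel maps
-/

open Set Filter Topology MeasureTheory

namespace Pool.Agent.Results.MP_ceb5ee_gt.BorelMapHulls

/-- A subset `A` of a (not necessarily commutative) topological group is null-finite if there is a
sequence `s n → 0` such that for each `x` only finitely many `n` satisfy `x + s n ∈ A`. -/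
def NullFinite {X : Type*} [AddGroup X] [TopologicalSpace X] (A : Set X) : Prop :=
  ∃ s : ℕ → X, Tendsto s atTop (𝓝 0) ∧ ∀ x : X, {n | x + s n ∈ A}.Finite

/-- The preimage of an analytic set under a Borel map of Polish spaces is analytic. -/
lemma analytic_preimage {X Y : Type*} [tX : TopologicalSpace X] [PolishSpace X] [MeasurableSpace X]
    [BorelSpace X] [TopologicalSpace Y] [PolishSpace Y] [MeasurableSpace Y] [BorelSpace Y]
    {f : X → Y} (hf : Measurable f) {A : Set Y} (hA : AnalyticSet A) : AnalyticSet (f ⁻¹' A) := by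
  obtain ⟨t, ht, hcont, hpol⟩ := hf.exists_continuous
  have h1 : @AnalyticSet X t (f ⁻¹' A) := by
    letI := t
    exact hA.preimage hcont
  have h2 : @Continuous X X t tX id := continuous_id_iff_le.2 ht
  have h3 := @AnalyticSet.image_of_continuous X t X tX (f ⁻¹' A) h1 id h2
  rwa [image_id] at h3

/-- Borel hulls for sequences of Borel maps. -/
theorem hull {X Y : Type*} [TopologicalSpace X] [PolishSpace X] [MeasurableSpace X]
    [BorelSpace X] [TopologicalSpace Y] [PolishSpace Y] [MeasurableSpace Y] [BorelSpace Y]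
    (f : ℕ → X → Y) (hf : ∀ n, Measurable (f n)) (A : Set Y) (hA : AnalyticSet A)
    (hfin : ∀ x, {n | f n x ∈ A}.Finite) :
    ∃ B : Set Y, MeasurableSet B ∧ A ⊆ B ∧ ∀ x, {n | f n x ∈ B}.Finite := by
  set A' : ℕ → Set X := fun n => f n ⁻¹' A with hA'
  have hA'an : ∀ n, AnalyticSet (A' n) := fun n => analytic_preimage (hf n) hA
  set T : ℕ → Set X := fun m => ⋃ n : ℕ, if m ≤ n then A' n else ∅ with hT
  have hTan : ∀ m, AnalyticSet (T m) := by
    intro m
    refine AnalyticSet.iUnion fun n => ?_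
    split_ifs
    · exact hA'an n
    · exact analyticSet_empty
  have hTmem : ∀ m x, x ∈ T m ↔ ∃ n, m ≤ n ∧ x ∈ A' n := by
    intro m x
    simp only [hT, Set.mem_iUnion]
    constructor
    · rintro ⟨n, hn⟩
      by_cases hmn : m ≤ n
      · rw [if_pos hmn] at hn
        exact ⟨n, hmn, hn⟩
      · rw [if_neg hmn] at hn
        exact absurd hn (Set.notMem_empty x)
    · rintro ⟨n, hmn, hn⟩
      refine ⟨n, ?_⟩
      rw [if_pos hmn]
      exact hn
  have hTe : ⋂ m, T m = ∅ := by
    rw [Set.eq_empty_iff_forall_notMem]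
    intro x hx
    obtain ⟨N, hN⟩ := (hfin x).bddAbove
    obtain ⟨n, hn, hxn⟩ := (hTmem (N + 1) x).1 (Set.mem_iInter.1 hx (N + 1))
    have := hN hxn
    omega
  obtain ⟨C, hC, hCe⟩ := Pool.Agent.Results.MP_ceb5ee_gt.AnalyticHull.novikov hTan hTe
  set D : ℕ → Set X := fun n => ⋂ m : ℕ, if m ≤ n then C m else Set.univ with hD
  have hDmem : ∀ n x, x ∈ D n ↔ ∀ m, m ≤ n → x ∈ C m := by
    intro n x
    simp only [hD, Set.mem_iInter]
    refine forall_congr' fun m => ?_
    by_cases hmn : m ≤ n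
    · simp [hmn]
    · simp [hmn]
  have hDmeas : ∀ n, MeasurableSet (D n) := by
    intro n
    refine MeasurableSet.iInter fun m => ?_
    split_ifs
    · exact (hC m).1
    · exact MeasurableSet.univ
  have hAD : ∀ n, A' n ⊆ D n := by
    intro n x hx
    rw [hDmem]
    intro m hm
    exact (hC m).2 ((hTmem m x).2 ⟨n, hm, hx⟩)
  -- separate `A` from the images of the complements of the `D n`
  have hsep : ∀ n, ∃ B : Set Y, A ⊆ B ∧ Disjoint (f n '' (D n)ᶜ) B ∧ MeasurableSet B := by
    intro n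
    refine hA.measurablySeparable ((hDmeas n).compl.analyticSet_image (hf n)) ?_
    rw [Set.disjoint_left]
    rintro y hy ⟨x, hx, rfl⟩
    exact hx (hAD n hy)
  choose B hAB hBD hB using hsep
  refine ⟨⋂ n, B n, MeasurableSet.iInter hB, Set.subset_iInter hAB, fun x => ?_⟩
  have h1 : ∃ m, x ∉ C m := by
    by_contra hcon
    push Not at hcon
    have h2 : x ∈ ⋂ n, C n := Set.mem_iInter.2 hcon
    rw [hCe] at h2
    exact h2
  obtain ⟨m, hm⟩ := h1
  refine (Set.finite_lt_nat m).subset ?_
  intro n hn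
  by_contra hcon
  apply hm
  have h2 : x ∈ D n := by
    by_contra hx
    exact Set.disjoint_left.1 (hBD n) ⟨x, hx, rfl⟩ (Set.mem_iInter.1 hn n)
  exact (hDmem n x).1 h2 m (not_lt.1 hcon)

/-- **Result.**
(1) Let `X`, `Y` be Polish spaces, `f n : X → Y` Borel maps and `A ⊆ Y` an analytic set such that
for every `x` only finitely many `n` satisfy `f n x ∈ A`. Then a Borel set `B ⊇ A` has the same
property.
(2) In particular, in every Polish group (commutative or not) and for every sequence `s` (tending to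
`0` or not): if the analytic set `A` satisfies `x + s n ∈ A` only for finitely many `n`, for every
`x`, then so does some Borel set `B ⊇ A`; the same for `s n + x ∈ A`.
(3) In every Polish group every analytic null-finite set is contained in a Borel null-finite set.
(4) In every Polish group of the form `ℤ^ℕ × Y`, with `Y` any commutative Polish group, there is a
coanalytic null-finite set which is contained in no Borel null-finite set. -/
theorem result :
    (∀ (X Y : Type) [TopologicalSpace X] [PolishSpace X] [MeasurableSpace X] [BorelSpace X]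
      [TopologicalSpace Y] [PolishSpace Y] [MeasurableSpace Y] [BorelSpace Y] (f : ℕ → X → Y),
      (∀ n, Measurable (f n)) → ∀ A : Set Y, AnalyticSet A → (∀ x, {n | f n x ∈ A}.Finite) →
      ∃ B : Set Y, MeasurableSet B ∧ A ⊆ B ∧ ∀ x, {n | f n x ∈ B}.Finite) ∧
    (∀ (X : Type) [AddGroup X] [TopologicalSpace X] [IsTopologicalAddGroup X] [PolishSpace X]
      (A : Set X), AnalyticSet A → ∀ s : ℕ → X,
      ((∀ x, {n | x + s n ∈ A}.Finite) → ∃ B : Set X, MeasurableSet[borel X] B ∧ A ⊆ B ∧
        ∀ x, {n | x + s n ∈ B}.Finite) ∧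
      ((∀ x, {n | s n + x ∈ A}.Finite) → ∃ B : Set X, MeasurableSet[borel X] B ∧ A ⊆ B ∧
        ∀ x, {n | s n + x ∈ B}.Finite)) ∧
    (∀ (X : Type) [AddGroup X] [TopologicalSpace X] [IsTopologicalAddGroup X] [PolishSpace X]
      (A : Set X), AnalyticSet A → NullFinite A →
      ∃ B : Set X, MeasurableSet[borel X] B ∧ A ⊆ B ∧ NullFinite B) ∧
    (∀ (Y : Type) [AddCommGroup Y] [TopologicalSpace Y] [IsTopologicalAddGroup Y] [PolishSpace Y],
      PolishSpace ((ℕ → ℤ) × Y) ∧ IsTopologicalAddGroup ((ℕ → ℤ) × Y) ∧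
      ∃ A : Set ((ℕ → ℤ) × Y), AnalyticSet Aᶜ ∧ NullFinite A ∧
        ∀ B : Set ((ℕ → ℤ) × Y), MeasurableSet[borel ((ℕ → ℤ) × Y)] B → A ⊆ B →
          ¬ NullFinite B) := by
  have h2 : ∀ (X : Type) [AddGroup X] [TopologicalSpace X] [IsTopologicalAddGroup X] [PolishSpace X]
      (A : Set X), AnalyticSet A → ∀ s : ℕ → X,
      ((∀ x, {n | x + s n ∈ A}.Finite) → ∃ B : Set X, MeasurableSet[borel X] B ∧ A ⊆ B ∧
        ∀ x, {n | x + s n ∈ B}.Finite) ∧
      ((∀ x, {n | s n + x ∈ A}.Finite) → ∃ B : Set X, MeasurableSet[borel X] B ∧ A ⊆ B ∧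
        ∀ x, {n | s n + x ∈ B}.Finite) := by
    intro X _ _ _ _ A hA s
    borelize X
    exact ⟨fun h => hull (fun n x => x + s n) (fun n => (continuous_add_right _).measurable) A hA h,
      fun h => hull (fun n x => s n + x) (fun n => (continuous_add_left _).measurable) A hA h⟩
  refine ⟨fun X Y _ _ _ _ _ _ _ _ f hf A hA h => hull f hf A hA h, h2, ?_, ?_⟩
  · rintro X _ _ _ _ A hA ⟨s, hs, hfin⟩
    obtain ⟨B, hB, hAB, hB'⟩ := (h2 X A hA s).1 hfin
    exact ⟨B, hB, hAB, s, hs, hB'⟩
  · intro Y _ _ _ _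
    refine ⟨inferInstance, inferInstance, ?_⟩
    obtain ⟨-, -, A, hA, ⟨s, hs, hfin⟩, -, hstrong⟩ :=
      Pool.Agent.Results.MP_ceb5ee_gt.CoanalyticHull.result
    refine ⟨Prod.fst ⁻¹' A, ?_, ⟨fun n => (s n, 0), ?_, ?_⟩, ?_⟩
    · rw [← Set.preimage_compl]
      exact hA.preimage continuous_fst
    · exact hs.prodMk_nhds tendsto_const_nhds
    · intro x
      exact hfin x.1
    · rintro B hB hAB ⟨z, -, hz⟩
      set C : Set (ℕ → ℤ) := ⋂ n, {v | (v, (z n).2) ∈ B} with hC
      have hCm : @MeasurableSet (ℕ → ℤ) (borel (ℕ → ℤ)) C := by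
        letI : MeasurableSpace ((ℕ → ℤ) × Y) := borel _
        haveI : BorelSpace ((ℕ → ℤ) × Y) := ⟨rfl⟩
        letI : MeasurableSpace (ℕ → ℤ) := borel _
        haveI : BorelSpace (ℕ → ℤ) := ⟨rfl⟩
        refine MeasurableSet.iInter fun n => ?_
        have hc : Continuous fun v : ℕ → ℤ => (v, (z n).2) := by fun_prop
        exact hc.measurable hB
      have hAC : A ⊆ C := fun v hv => Set.mem_iInter.2 fun n => hAB hv
      obtain ⟨x, hx⟩ := hstrong C hCm hAC (fun n => (z n).1)
      refine hx ((hz (x, 0)).subset ?_)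
      intro n hn
      have h3 := Set.mem_iInter.1 hn n
      show (x, (0 : Y)) + z n ∈ B
      have h4 : (x, (0 : Y)) + z n = (x + (z n).1, (z n).2) := by
        ext1
        · rfl
        · exact zero_add _
      rw [h4]
      exact h3

end Pool.Agent.Results.MP_ceb5ee_gt.BorelMapHulls
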